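import Pool.Agent.KS6_54.MU.Chk1
import Pool.Agent.KS6_54.MU.Chk2
import Pool.Agent.KS6_54.MU.Chk3
import Pool.Agent.KS6_54.MU.Chk4

set_option autoImplicit false

/-!
# Consecutive patterns in permutations with a given number of inversions

An exact formula for the expected number of occurrences, for every pattern, every `n` and every
number of inversions; and all failures of unimodality for `n ≤ 13`, and for patterns of length at
most `27` if `n = |π| + 2`.
-/

namespace Pool.Agent.Results.MP_094caa_co.ExactFormula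

open Finset Polynomial Pool.Agent.KS6_54.MU

/-- (1) For every consecutive pattern `π` of length `k ≤ n` and all `m`, the expected number of
occurrences of `π` in a random permutation of length `n` with `m` inversions is `n + 1 - k` times the
coefficient of `q ^ m` in `q ^ (inv π) ∏_{k ≤ j < n} (1 + ⋯ + q ^ j)`, divided by the coefficient of
`q ^ m` in `∏_{0 ≤ j < n} (1 + ⋯ + q ^ j)`. In particular it depends on `π` only through its length
and its number of inversions.
(2) Let `n ≥ k + 2` and either `n ≤ 13`, or `n = k + 2` and `k ≤ 27`. The sequence of the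
expectations is unimodal, except if `n = k + 2` and `inv π` is `r` or `k (k - 1) / 2 - r` for one of
the pairs `(k, r)` of the list `T`.
(3) All the exceptions occur: for every `(k, r)` of the list there is a pattern of length `k` with
`r` inversions, for which the sequence is not unimodal for `n = k + 2`. So the answer to the question
is negative for the pattern lengths `5, 6, 8, 9, 11, …, 17, 19, 21, 22, 27`, and for no other
length up to `27` if `n = k + 2`. -/
theorem result :
    (∀ k n : ℕ, k ≤ n → ∀ (π : Equiv.Perm (Fin k)) (m : ℕ),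
      E n m π = ((n : ℚ) + 1 - k) *
        ((X ^ inv π * ∏ j ∈ Ico k n, ∑ t ∈ range (j + 1), X ^ t : ℤ[X]).coeff m : ℤ) /
        ((∏ j ∈ range n, ∑ t ∈ range (j + 1), X ^ t : ℤ[X]).coeff m : ℤ)) ∧
    (∀ k n : ℕ, k + 2 ≤ n → (n ≤ 13 ∨ (n = k + 2 ∧ k ≤ 27)) → ∀ π : Equiv.Perm (Fin k),
      (Unimodal (n.choose 2) (fun m => E n m π) ↔
        ¬ ∃ p ∈ T, p.1 = k ∧ n = k + 2 ∧ (inv π = p.2 ∨ inv π + p.2 = k.choose 2))) ∧
    (∀ p ∈ T, ∃ π : Equiv.Perm (Fin p.1), inv π = p.2 ∧
      ¬ Unimodal ((p.1 + 2).choose 2) (fun m => E (p.1 + 2) m π)) := by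
  have h2 : ∀ k n : ℕ, k + 2 ≤ n → (n ≤ 13 ∨ (n = k + 2 ∧ k ≤ 27)) → ok k n = true := by
    intro k n hk h
    by_cases h13 : n ≤ 13
    · have h1 := List.all_eq_true.1 c13 n (List.mem_range.2 (by omega))
      exact List.all_eq_true.1 h1 k (List.mem_range.2 (by omega))
    have h3 : n = k + 2 ∧ 12 ≤ k ∧ k ≤ 27 := by omega
    obtain ⟨rfl, h4, h5⟩ := h3
    by_cases h18 : k ≤ 18
    · have h1 := List.all_eq_true.1 e18 (k - 12) (List.mem_range.2 (by omega))
      rwa [show k - 12 + 12 = k by omega, show k - 12 + 14 = k + 2 by omega] at h1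
    by_cases h22 : k ≤ 22
    · have h1 := List.all_eq_true.1 e22 (k - 19) (List.mem_range.2 (by omega))
      rwa [show k - 19 + 19 = k by omega, show k - 19 + 21 = k + 2 by omega] at h1
    have h6 : 23 ≤ k := by omega
    clear h4 h13 h18 h22 hk h
    interval_cases k
    · exact d23
    · exact d24
    · exact d25
    · exact d26
    · exact d27
  refine ⟨fun k n hk π m => E_eq hk π m, fun k n hk h π => ok_sound (by omega) (h2 k n hk h) π, ?_⟩
  intro p hp
  have h3 : T.all (fun p => Nat.blt 0 ((prodL 0 p.1).getD p.2 0) && Nat.ble p.1 27) = true := by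
    decide +kernel
  have h4 := List.all_eq_true.1 h3 p hp
  rw [Bool.and_eq_true] at h4
  obtain ⟨π, hπ⟩ := exists_inv h4.1
  have h5 : p.1 ≤ 27 := by simpa using h4.2
  refine ⟨π, hπ, fun hu => ?_⟩
  exact (ok_sound (by omega) (h2 p.1 (p.1 + 2) le_rfl (Or.inr ⟨rfl, h5⟩)) π).1 hu
    ⟨p, hp, rfl, rfl, Or.inl hπ⟩

end Pool.Agent.Results.MP_094caa_co.ExactFormula
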